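import Mathlib

set_option autoImplicit false

namespace Pool.Agent.MP_5f8894_co

open Finset

variable {V : Type}

/-- All adjacency patterns to triples occur. -/
def Good (G : SimpleGraph V) : Prop :=
  ∀ T : Finset V, T.card = 3 → ∀ p : T → Prop, ∃ c : {c : V // c ∉ T}, (fun t : T => G.Adj c t) = p

/-- Pattern of a graph along `T`. -/
def pat (T : Finset V) (G : SimpleGraph V) : {c : V // c ∉ T} → (T → Prop) :=
  fun c t => G.Adj c t

open Classical in
/-- Reset the adjacencies between `T` and its complement. -/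
noncomputable def reset (T : Finset V) (G : SimpleGraph V) (g : {c : V // c ∉ T} → (T → Prop)) :
    SimpleGraph V where
  Adj x y := if hx : x ∈ T then (if hy : y ∈ T then G.Adj x y else g ⟨y, hy⟩ ⟨x, hx⟩)
    else (if hy : y ∈ T then g ⟨x, hx⟩ ⟨y, hy⟩ else G.Adj x y)
  symm := by
    constructor
    intro x y h
    by_cases hx : x ∈ T <;> by_cases hy : y ∈ T <;> simp_all [G.adj_comm]
  loopless := by
    constructor
    intro x h
    by_cases hx : x ∈ T <;> simp_all

lemma pat_reset (T : Finset V) (G : SimpleGraph V) (g : {c : V // c ∉ T} → (T → Prop)) :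
    pat T (reset T G g) = g := by
  funext c t
  have h1 := c.2
  have h2 := t.2
  simp [pat, reset, h1, h2]

lemma reset_reset (T : Finset V) (G : SimpleGraph V) (g : {c : V // c ∉ T} → (T → Prop)) :
    reset T (reset T G g) (pat T G) = G := by
  ext x y
  by_cases hx : x ∈ T <;> by_cases hy : y ∈ T <;> simp [pat, reset, hx, hy, G.adj_comm]

lemma card_bad [Fintype V] (T : Finset V) (hT : T.card = 3) (p : T → Prop) :
    Nat.card {G : SimpleGraph V // ∀ c, pat T G c ≠ p} * 8 ^ (Fintype.card V - 3) ≤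
      Nat.card (SimpleGraph V) * 7 ^ (Fintype.card V - 3) := by
  classical
  have hC : Nat.card {c : V // c ∉ T} = Fintype.card V - 3 := by
    rw [Nat.card_eq_fintype_card, Fintype.card_subtype_compl, Fintype.card_coe, hT]
  have hP : Nat.card (T → Prop) = 8 := by
    rw [Nat.card_fun, Nat.card_eq_fintype_card, Nat.card_eq_fintype_card, Fintype.card_coe, hT]
    simp
  have hP' : Nat.card {q : T → Prop // q ≠ p} = 7 := by
    rw [Nat.card_eq_fintype_card, Fintype.card_subtype_compl, Fintype.card_subtype_eq,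
      ← Nat.card_eq_fintype_card, hP]
  have h1 : Nat.card ({G : SimpleGraph V // ∀ c, pat T G c ≠ p} × ({c : V // c ∉ T} → (T → Prop))) =
      Nat.card {G : SimpleGraph V // ∀ c, pat T G c ≠ p} * 8 ^ (Fintype.card V - 3) := by
    rw [Nat.card_prod, Nat.card_fun, hP, hC]
  have h2 : Nat.card (SimpleGraph V × ({c : V // c ∉ T} → {q : T → Prop // q ≠ p})) =
      Nat.card (SimpleGraph V) * 7 ^ (Fintype.card V - 3) := by
    rw [Nat.card_prod, Nat.card_fun, hP', hC]
  rw [← h1, ← h2]
  apply Nat.card_le_card_of_injective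
    (fun x : {G : SimpleGraph V // ∀ c, pat T G c ≠ p} × ({c : V // c ∉ T} → (T → Prop)) =>
      ((reset T x.1.1 x.2, fun c => ⟨pat T x.1.1 c, x.1.2 c⟩) :
        SimpleGraph V × ({c : V // c ∉ T} → {q : T → Prop // q ≠ p})))
  rintro ⟨⟨G, hG⟩, g⟩ ⟨⟨G', hG'⟩, g'⟩ h
  simp only [Prod.mk.injEq] at h
  obtain ⟨ha, hb⟩ := h
  have hg : g = g' := by
    rw [← pat_reset T G g, ha, pat_reset]
  have hpat : pat T G = pat T G' := by
    funext c
    exact congrArg Subtype.val (congrFun hb c)
  have hGG : G = G' := by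
    rw [← reset_reset T G g, ha, hpat, reset_reset]
  subst hg hGG
  rfl

lemma card_notGood [Fintype V] :
    Nat.card {G : SimpleGraph V // ¬ Good G} * 8 ^ (Fintype.card V - 3) ≤
      ((Fintype.card V) ^ 3 * 8) * (Nat.card (SimpleGraph V) * 7 ^ (Fintype.card V - 3)) := by
  classical
  let X := Σ T : {T : Finset V // T.card = 3}, (T.1 → Prop)
  have hX : Fintype.card X ≤ (Fintype.card V) ^ 3 * 8 := by
    rw [Fintype.card_sigma]
    have : ∀ T : {T : Finset V // T.card = 3}, Fintype.card (T.1 → Prop) = 8 := by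
      intro T
      rw [Fintype.card_fun, Fintype.card_coe, T.2]
      simp
    rw [Finset.sum_congr rfl (fun T _ => this T), Finset.sum_const, smul_eq_mul]
    apply Nat.mul_le_mul_right
    rw [Finset.card_univ, Fintype.card_finset_len]
    exact Nat.choose_le_pow _ _
  have hsub : (univ.filter fun G : SimpleGraph V => ¬ Good G) ⊆
      (univ : Finset X).biUnion
        (fun x => univ.filter fun G : SimpleGraph V => ∀ c, pat x.1.1 G c ≠ x.2) := by
    intro G hG
    have hG' : ¬ Good G := (Finset.mem_filter.1 hG).2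
    unfold Good at hG'
    push Not at hG'
    obtain ⟨T, hT, q, hq⟩ := hG'
    simp only [mem_biUnion, mem_filter, mem_univ, true_and]
    exact ⟨⟨⟨T, hT⟩, q⟩, fun c => hq c⟩
  have hcard := (Finset.card_le_card hsub).trans Finset.card_biUnion_le
  have e1 : Nat.card {G : SimpleGraph V // ¬ Good G} =
      (univ.filter fun G : SimpleGraph V => ¬ Good G).card := by
    rw [Nat.card_eq_fintype_card, Fintype.card_subtype]
  have e2 : ∀ x : X, (univ.filter fun G : SimpleGraph V => ∀ c, pat x.1.1 G c ≠ x.2).card =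
      Nat.card {G : SimpleGraph V // ∀ c, pat x.1.1 G c ≠ x.2} := by
    intro x
    rw [Nat.card_eq_fintype_card, Fintype.card_subtype]
  rw [e1]
  calc (univ.filter fun G : SimpleGraph V => ¬ Good G).card * 8 ^ (Fintype.card V - 3)
      ≤ (∑ x : X, (univ.filter fun G : SimpleGraph V => ∀ c, pat x.1.1 G c ≠ x.2).card) *
          8 ^ (Fintype.card V - 3) := Nat.mul_le_mul_right _ hcard
    _ = ∑ x : X, Nat.card {G : SimpleGraph V // ∀ c, pat x.1.1 G c ≠ x.2} *
          8 ^ (Fintype.card V - 3) := by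
        rw [Finset.sum_mul]
        exact Finset.sum_congr rfl (fun x _ => by rw [e2 x])
    _ ≤ ∑ _x : X, Nat.card (SimpleGraph V) * 7 ^ (Fintype.card V - 3) :=
        Finset.sum_le_sum (fun x _ => card_bad x.1.1 x.1.2 x.2)
    _ = Fintype.card X * (Nat.card (SimpleGraph V) * 7 ^ (Fintype.card V - 3)) := by
        rw [Finset.sum_const, smul_eq_mul, Finset.card_univ]
    _ ≤ ((Fintype.card V) ^ 3 * 8) * (Nat.card (SimpleGraph V) * 7 ^ (Fintype.card V - 3)) :=
        Nat.mul_le_mul_right _ hX

open Filter Topology in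
/-- If a property holds for all graphs on `n ≥ 3` vertices satisfying `Good`, it holds for almost
every graph. -/
lemma tendsto_of_good (Q : ∀ n : ℕ, SimpleGraph (Fin n) → Prop)
    (hQ : ∀ n (G : SimpleGraph (Fin n)), 3 ≤ n → Good G → Q n G) :
    Tendsto (fun n : ℕ => (Nat.card {G : SimpleGraph (Fin n) // Q n G} : ℝ) /
      (Nat.card (SimpleGraph (Fin n)) : ℝ)) atTop (𝓝 1) := by
  have hlow : Tendsto (fun n : ℕ => (1 : ℝ) - 8 * (8 / 7) ^ 3 * ((n : ℝ) ^ 3 * (7 / 8) ^ n))
      atTop (𝓝 1) := by
    have h := tendsto_pow_const_mul_const_pow_of_abs_lt_one 3 (r := (7 / 8 : ℝ))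
      (by rw [abs_of_pos] <;> norm_num)
    have h2 := (h.const_mul (8 * (8 / 7) ^ 3 : ℝ)).const_sub 1
    simpa using h2
  refine tendsto_of_tendsto_of_tendsto_of_le_of_le' hlow tendsto_const_nhds ?_ ?_
  · filter_upwards [eventually_ge_atTop 3] with n hn
    have hpos : (0 : ℝ) < Nat.card (SimpleGraph (Fin n)) := by
      exact_mod_cast Nat.card_pos
    rw [le_div_iff₀ hpos]
    have hsplit : Nat.card (SimpleGraph (Fin n)) ≤
        Nat.card {G : SimpleGraph (Fin n) // Q n G} +
          Nat.card {G : SimpleGraph (Fin n) // ¬ Good G} := by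
      classical
      rw [Nat.card_eq_fintype_card, Nat.card_eq_fintype_card, Nat.card_eq_fintype_card,
        Fintype.card_subtype, Fintype.card_subtype, ← Finset.card_univ]
      have : (univ : Finset (SimpleGraph (Fin n))) ⊆
          (univ.filter fun G => Q n G) ∪ (univ.filter fun G => ¬ Good G) := by
        intro G _
        simp only [mem_union, mem_filter, mem_univ, true_and]
        by_cases hG : Good G
        · exact Or.inl (hQ n G hn hG)
        · exact Or.inr hG
      exact (Finset.card_le_card this).trans (Finset.card_union_le _ _)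
    have hbad := card_notGood (V := Fin n)
    rw [Fintype.card_fin] at hbad
    have hsplit' : (Nat.card (SimpleGraph (Fin n)) : ℝ) ≤
        Nat.card {G : SimpleGraph (Fin n) // Q n G} +
          Nat.card {G : SimpleGraph (Fin n) // ¬ Good G} := by exact_mod_cast hsplit
    have hbad' : (Nat.card {G : SimpleGraph (Fin n) // ¬ Good G} : ℝ) * 8 ^ (n - 3) ≤
        ((n : ℝ) ^ 3 * 8) * (Nat.card (SimpleGraph (Fin n)) * 7 ^ (n - 3)) := by
      exact_mod_cast hbad
    have h8 : (8 : ℝ) ^ n = 8 ^ (n - 3) * 8 ^ 3 := by rw [← pow_add]; congr 1; omega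
    have h7 : (7 : ℝ) ^ n = 7 ^ (n - 3) * 7 ^ 3 := by rw [← pow_add]; congr 1; omega
    have hb2 : (Nat.card {G : SimpleGraph (Fin n) // ¬ Good G} : ℝ) ≤
        8 * (8 / 7) ^ 3 * ((n : ℝ) ^ 3 * (7 / 8) ^ n) * Nat.card (SimpleGraph (Fin n)) := by
      have h8pos : (0 : ℝ) < 8 ^ (n - 3) := by positivity
      rw [← mul_le_mul_iff_left₀ h8pos]
      refine hbad'.trans (le_of_eq ?_)
      rw [div_pow, div_pow, h8, h7]
      field_simp
    nlinarith
  · filter_upwards with n
    have hpos : (0 : ℝ) < Nat.card (SimpleGraph (Fin n)) := by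
      exact_mod_cast Nat.card_pos
    rw [div_le_one hpos]
    exact_mod_cast Nat.card_le_card_of_injective _ Subtype.val_injective

end Pool.Agent.MP_5f8894_co
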