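import Mathlib

set_option autoImplicit false

namespace Pool.Agent.MP_5f8894_co

/-- `H` is an `r`-ASC graph: it is connected, has radius `r`, and exactly two of its vertices are
not central (a vertex is central if its eccentricity equals the radius). -/
def IsASC (r : ℕ) {W : Type} (H : SimpleGraph W) : Prop :=
  H.Connected ∧ H.radius = (r : ℕ∞) ∧ (H.centerᶜ).ncard = 2

/-- The `r`-ASC index of a graph `G`: the least `k` such that some `r`-ASC graph `H` with
`|V(H)| = |V(G)| + k` contains `G` as an induced subgraph. -/
noncomputable def theta (r : ℕ) {V : Type} [Fintype V] (G : SimpleGraph V) : ℕ :=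
  sInf {k : ℕ | ∃ (W : Type) (_ : Fintype W) (H : SimpleGraph W),
    Fintype.card W = Fintype.card V + k ∧ IsASC r H ∧ Nonempty (G ↪g H)}

end Pool.Agent.MP_5f8894_co
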