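import Mathlib
import Pool.Agent.Lib.MP_5f8894_co.Defs
import Pool.Agent.Lib.MP_5f8894_co.Count

set_option autoImplicit false

namespace Pool.Agent.MP_5f8894_co

open Finset

variable {V : Type} [Fintype V]

/-- In a good graph on at least three vertices any two vertices have a common neighbour. -/
lemma common_nbr {G : SimpleGraph V} (hG : Good G) (hV : 3 ≤ Fintype.card V) (u v : V) :
    ∃ w, G.Adj w u ∧ G.Adj w v := by
  classical
  obtain ⟨T, hT1, hT2⟩ : ∃ T : Finset V, ({u, v} : Finset V) ⊆ T ∧ T.card = 3 := by
    obtain ⟨T, h1, -, h2⟩ := Finset.exists_subsuperset_card_eq (s := ({u, v} : Finset V))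
      (t := univ) (subset_univ _) (n := 3) (Finset.card_le_two.trans (by norm_num)) (by simpa using hV)
    exact ⟨T, h1, h2⟩
  obtain ⟨c, hc⟩ := hG T hT2 (fun _ => True)
  have hu : u ∈ T := hT1 (by simp)
  have hv : v ∈ T := hT1 (by simp)
  refine ⟨c, ?_, ?_⟩
  · have := congrFun hc ⟨u, hu⟩
    simpa using this
  · have := congrFun hc ⟨v, hv⟩
    simpa using this

/-- For distinct `y`, `b` and `x` outside, there is a vertex adjacent to `x` but to neither `y`
nor `b`. -/
lemma ext_nbr {G : SimpleGraph V} (hG : Good G) {y b x : V} (h1 : y ≠ b) (h2 : x ≠ y)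
    (h3 : x ≠ b) : ∃ c, c ≠ y ∧ c ≠ b ∧ c ≠ x ∧ G.Adj c x ∧ ¬ G.Adj c y ∧ ¬ G.Adj c b := by
  classical
  have hT : ({x, y, b} : Finset V).card = 3 := by
    rw [Finset.card_eq_three]
    exact ⟨x, y, b, h2, h3, h1, rfl⟩
  obtain ⟨c, hc⟩ := hG _ hT (fun t => t.1 = x)
  have hcm := c.2
  simp only [mem_insert, mem_singleton, not_or] at hcm
  refine ⟨c, hcm.2.1, hcm.2.2, hcm.1, ?_, ?_, ?_⟩
  · have := congrFun hc ⟨x, by simp⟩
    simpa using this
  · have := congrFun hc ⟨y, by simp⟩
    simp only [eq_iff_iff] at this
    rw [this]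
    exact fun h => h2 h.symm
  · have := congrFun hc ⟨b, by simp⟩
    simp only [eq_iff_iff] at this
    rw [this]
    exact fun h => h3 h.symm

lemma edist_le_two {W : Type} {H : SimpleGraph W} {x y z : W} (h1 : H.Adj x y) (h2 : H.Adj y z) :
    H.edist x z ≤ 2 := by
  simpa using (SimpleGraph.Walk.cons h1 (SimpleGraph.Walk.cons h2 .nil)).edist_le

lemma edist_le_three {W : Type} {H : SimpleGraph W} {x y z t : W} (h1 : H.Adj x y)
    (h2 : H.Adj y z) (h3 : H.Adj z t) : H.edist x t ≤ 3 := by
  simpa using (SimpleGraph.Walk.cons h1 (SimpleGraph.Walk.cons h2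
    (SimpleGraph.Walk.cons h3 .nil))).edist_le

lemma edist_le_one {W : Type} {H : SimpleGraph W} {x y : W} (h1 : H.Adj x y) :
    H.edist x y ≤ 1 := by
  simpa using (SimpleGraph.Walk.cons h1 .nil).edist_le

/-! ### Lower bound -/

/-- No `3`-ASC graph has few extra vertices. -/
lemma lower {G : SimpleGraph V} (hG : Good G) (hV : 3 ≤ Fintype.card V) {W : Type} [Fintype W]
    {H : SimpleGraph W} (hH : IsASC 3 H) (f : G ↪g H) :
    Fintype.card V + 3 ≤ Fintype.card W := by
  classical
  by_contra hcon
  push Not at hcon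
  obtain ⟨hconn, hrad, -⟩ := hH
  -- it suffices to find a vertex of `G` of eccentricity at most two
  have key : ∀ w : V, (∀ a : W, a ∉ Set.range f → H.edist (f w) a ≤ 2) → False := by
    intro w hw
    have hecc : H.eccent (f w) ≤ 2 := by
      rw [SimpleGraph.eccent_le_iff]
      intro x
      by_cases hx : x ∈ Set.range f
      · obtain ⟨v, rfl⟩ := hx
        obtain ⟨c, h1, h2⟩ := common_nbr hG hV w v
        exact edist_le_two ((f.map_rel_iff).2 h1.symm) ((f.map_rel_iff).2 h2)
      · exact hw x hx
    have h3 : H.radius ≤ 2 := SimpleGraph.radius_le_eccent.trans hecc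
    rw [hrad] at h3
    exact absurd h3 (by decide)
  -- the extra vertices
  let E : Finset W := univ.filter fun a => a ∉ Set.range f
  have hE : E.card ≤ 2 := by
    have h1 : (univ.filter fun a => a ∈ Set.range f).card = Fintype.card V := by
      have : (univ.filter fun a : W => a ∈ Set.range f) = univ.map f.toEmbedding := by
        ext a; simp
      rw [this, card_map, card_univ]
    have h2 := Finset.card_filter_add_card_filter_not (s := (univ : Finset W))
      (fun a => a ∈ Set.range f)
    rw [h1, card_univ] at h2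
    show (univ.filter fun a => a ∉ Set.range f).card ≤ 2
    omega
  have hmemE : ∀ a, a ∈ E ↔ a ∉ Set.range f := by intro a; simp [E]
  haveI : Nonempty V := Fintype.card_pos_iff.1 (by omega)
  -- every vertex has a neighbour in `H`
  have hnb : ∀ a : W, ∃ b, H.Adj a b := by
    intro a
    have hnt : Nontrivial W := by
      rw [← Fintype.one_lt_card_iff_nontrivial]
      have := Fintype.card_le_of_injective f f.injective
      omega
    exact hconn.preconnected.exists_adj_of_nontrivial a
  by_cases hE0 : E = ∅
  · obtain ⟨w⟩ := ‹Nonempty V›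
    exact key w (fun a ha => absurd ((hmemE a).2 ha) (by rw [hE0]; exact notMem_empty a))
  obtain ⟨a, ha⟩ := Finset.nonempty_iff_ne_empty.2 hE0
  by_cases hE1 : ∀ b ∈ E, b = a
  · -- exactly one extra vertex
    obtain ⟨b, hb⟩ := hnb a
    have hbr : b ∈ Set.range f := by
      by_contra hbr
      have := hE1 b ((hmemE b).2 hbr)
      subst this
      exact H.loopless.irrefl _ hb
    obtain ⟨w, rfl⟩ := hbr
    refine key w (fun x hx => ?_)
    rw [hE1 x ((hmemE x).2 hx)]
    exact (edist_le_one hb.symm).trans (by norm_num)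
  · push Not at hE1
    obtain ⟨b, hb, hba⟩ := hE1
    have hEab : ∀ x ∈ E, x = a ∨ x = b := by
      intro x hx
      by_contra hx'
      push Not at hx'
      have : ({a, b, x} : Finset W) ⊆ E := by
        intro t ht
        simp only [mem_insert, mem_singleton] at ht
        rcases ht with rfl | rfl | rfl <;> assumption
      have h3 : ({a, b, x} : Finset W).card = 3 := by
        rw [Finset.card_eq_three]
        exact ⟨a, b, x, fun h => hba h.symm, fun h => hx'.1 h.symm, fun h => hx'.2 h.symm, rfl⟩
      have := Finset.card_le_card this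
      omega
    -- a vertex of `G` adjacent to `a` (or to `b`)
    have hstep : ∀ a b : W, (∀ x ∈ E, x = a ∨ x = b) → a ∈ E → b ∈ E →
        (∃ w, H.Adj (f w) a) → False := by
      intro a b hEab ha hb ⟨w, hw⟩
      obtain ⟨z, hz⟩ := hnb b
      by_cases hzr : z ∈ Set.range f
      · obtain ⟨v, rfl⟩ := hzr
        obtain ⟨c, h1, h2⟩ := common_nbr hG hV w v
        refine key c (fun x hx => ?_)
        rcases hEab x ((hmemE x).2 hx) with rfl | rfl
        · exact edist_le_two ((f.map_rel_iff).2 h1) hw
        · exact edist_le_two ((f.map_rel_iff).2 h2) hz.symm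
      · have hza : z = a := by
          rcases hEab z ((hmemE z).2 hzr) with h | h
          · exact h
          · subst h; exact absurd hz (H.loopless.irrefl _)
        subst hza
        refine key w (fun x hx => ?_)
        rcases hEab x ((hmemE x).2 hx) with rfl | rfl
        · exact (edist_le_one hw).trans (by norm_num)
        · exact edist_le_two hw hz.symm
    obtain ⟨z, hz⟩ := hnb a
    by_cases hzr : z ∈ Set.range f
    · obtain ⟨w, rfl⟩ := hzr
      exact hstep a b hEab ha hb ⟨w, hz.symm⟩
    · have hzb : z = b := by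
        rcases hEab z ((hmemE z).2 hzr) with h | h
        · subst h; exact absurd hz (H.loopless.irrefl _)
        · exact h
      subst hzb
      -- then `b` has a neighbour in `G` by connectedness
      obtain ⟨v0⟩ := ‹Nonempty V›
      by_contra _
      have hex : ∃ w, H.Adj (f w) a ∨ H.Adj (f w) z := by
        by_contra hno
        push Not at hno
        obtain ⟨p⟩ := hconn.preconnected a (f v0)
        obtain ⟨x, hx, d, hd1, hd2⟩ : ∃ x, x = x ∧ ∃ d ∈ p.darts, (d.fst = a ∨ d.fst = z) ∧
            ¬ (d.snd = a ∨ d.snd = z) := by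
          obtain ⟨d, hd, h1, h2⟩ := p.exists_boundary_dart {x | x = a ∨ x = z} (Or.inl rfl)
            (by
              rintro (h | h)
              · exact (hmemE a).1 ha ⟨v0, h⟩
              · exact hzr ⟨v0, h⟩)
          exact ⟨a, rfl, d, hd, h1, h2⟩
        have hadj := d.adj
        have hr : d.snd ∈ Set.range f := by
          by_contra hr
          exact hd2.2 (hEab _ ((hmemE _).2 hr))
        obtain ⟨w, hw⟩ := hr
        rw [← hw] at hadj
        rcases hd2.1 with h | h
        · rw [h] at hadj; exact (hno w).1 hadj.symm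
        · rw [h] at hadj; exact (hno w).2 hadj.symm
      obtain ⟨w, hw | hw⟩ := hex
      · exact hstep a z hEab ha hb ⟨w, hw⟩
      · exact hstep z a (fun x hx => (hEab x hx).symm) hb ha ⟨w, hw⟩

end Pool.Agent.MP_5f8894_co
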