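import Mathlib
import Pool.Agent.Lib.MP_5f8894_co.Defs
import Pool.Agent.Lib.MP_5f8894_co.Count
import Pool.Agent.Lib.MP_5f8894_co.Struct

set_option autoImplicit false

namespace Pool.Agent.MP_5f8894_co

open Finset

variable {V : Type}

/-- The neighbourhoods in `G` of the three new vertices `a = 0`, `b = 1`, `c = 2`. -/
def nb (G : SimpleGraph V) (y b0 : V) : Fin 3 → V → Prop :=
  ![fun _ => False, fun u => u = b0, fun u => u ≠ y ∧ u ≠ b0 ∧ ¬ G.Adj u y ∧ ¬ G.Adj u b0]

/-- The graph obtained from `G` by adding three vertices `a, b, c` with `b ~ a ~ c`, with `b`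
adjacent to `b0`, and `c` adjacent to all common non-neighbours of `y` and `b0`. -/
def ext (G : SimpleGraph V) (y b0 : V) : SimpleGraph (V ⊕ Fin 3) where
  Adj
    | .inl u, .inl v => G.Adj u v
    | .inl u, .inr i => nb G y b0 i u
    | .inr i, .inl u => nb G y b0 i u
    | .inr i, .inr j => (i = 0 ∧ j ≠ 0) ∨ (j = 0 ∧ i ≠ 0)
  symm := by
    constructor
    rintro (u | i) (v | j) h
    · exact G.adj_symm h
    · exact h
    · exact h
    · exact h.symm
  loopless := by
    constructor
    rintro (u | i) h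
    · exact G.loopless.irrefl _ h
    · rcases h with ⟨h1, h2⟩ | ⟨h1, h2⟩ <;> exact h2 h1

variable {G : SimpleGraph V} {y b0 : V}

lemma adj_ll (u v : V) : (ext G y b0).Adj (.inl u) (.inl v) ↔ G.Adj u v := Iff.rfl
lemma adj_ab : (ext G y b0).Adj (.inr 0) (.inr 1) := Or.inl ⟨rfl, by decide⟩
lemma adj_ac : (ext G y b0).Adj (.inr 0) (.inr 2) := Or.inl ⟨rfl, by decide⟩
lemma adj_bb0 : (ext G y b0).Adj (.inr 1) (.inl b0) := rfl
lemma adj_c (u : V) : (ext G y b0).Adj (.inr 2) (.inl u) ↔
    (u ≠ y ∧ u ≠ b0 ∧ ¬ G.Adj u y ∧ ¬ G.Adj u b0) := Iff.rfl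
lemma adj_a (u : V) : ¬ (ext G y b0).Adj (.inr 0) (.inl u) := fun h => h
lemma adj_b (u : V) : (ext G y b0).Adj (.inr 1) (.inl u) ↔ u = b0 := Iff.rfl
lemma not_adj_bc : ¬ (ext G y b0).Adj (.inr 1) (.inr 2) := by
  rintro (⟨h1, h2⟩ | ⟨h1, h2⟩)
  · exact absurd h1 (by decide)
  · exact absurd h1 (by decide)

/-- A criterion for distance at least three. -/
lemma three_le {W : Type} {H : SimpleGraph W} {u v : W} (h1 : u ≠ v) (h2 : ¬ H.Adj u v)
    (h3 : ∀ w, H.Adj u w → H.Adj v w → False) : 3 ≤ H.edist u v := by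
  have : 2 < H.edist u v := by
    rw [SimpleGraph.two_lt_edist_iff]
    refine ⟨h1, h2, ?_⟩
    rw [Set.eq_empty_iff_forall_notMem]
    intro w hw
    rw [SimpleGraph.mem_commonNeighbors] at hw
    exact h3 w hw.1 hw.2
  have h4 := Order.add_one_le_of_lt this
  have e : (2 : ℕ∞) + 1 = 3 := by norm_num
  rwa [e] at h4

/-- Potential function giving the lower bounds for distances from `a`. -/
lemma dist_of_lipschitz {W : Type} {H : SimpleGraph W} (φ : W → ℕ)
    (hφ : ∀ u v, H.Adj u v → φ v ≤ φ u + 1) {u v : W} (p : H.Walk u v) :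
    φ v ≤ φ u + p.length := by
  induction p with
  | nil => simp
  | cons h p ih =>
    have := hφ _ _ h
    simp only [SimpleGraph.Walk.length_cons]
    omega

lemma le_edist_of_lipschitz {W : Type} {H : SimpleGraph W} (φ : W → ℕ)
    (hφ : ∀ u v, H.Adj u v → φ v ≤ φ u + 1) (u v : W) (k : ℕ) (hk : φ u + k ≤ φ v) :
    (k : ℕ∞) ≤ H.edist u v := by
  by_cases h : H.edist u v = ⊤
  · rw [h]; exact le_top
  · obtain ⟨p, hp⟩ := SimpleGraph.exists_walk_of_edist_ne_top h
    rw [← hp]
    have := dist_of_lipschitz φ hφ p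
    exact_mod_cast (by omega : k ≤ p.length)

open Classical in
/-- The distance from `a`. -/
noncomputable def phi (G : SimpleGraph V) (y b0 : V) : V ⊕ Fin 3 → ℕ
  | .inl u => if u = y then 4 else if u = b0 ∨ nb G y b0 2 u then 2 else 3
  | .inr i => if i = 0 then 0 else 1

lemma phi_lip (hyb : y ≠ b0) (hadj : ¬ G.Adj y b0) (u v : V ⊕ Fin 3)
    (h : (ext G y b0).Adj u v) : phi G y b0 v ≤ phi G y b0 u + 1 := by
  classical
  rcases u with u | i <;> rcases v with v | j
  · rw [adj_ll] at h
    by_cases hv : v = y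
    · subst hv
      have hu1 : u ≠ v := h.ne
      have hu2 : ¬ (u = b0 ∨ nb G v b0 2 u) := by
        rintro (h1 | h1)
        · subst h1; exact hadj h.symm
        · exact h1.2.2.1 h
      simp [phi, hu1, hu2]
    · have h1 : phi G y b0 (.inl v) ≤ 3 := by
        unfold phi
        simp only [hv, if_false]
        split_ifs <;> norm_num
      have h2 : 2 ≤ phi G y b0 (.inl u) := by
        unfold phi
        simp only
        split_ifs <;> norm_num
      omega
  · have h1 : phi G y b0 (.inr j) ≤ 1 := by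
      unfold phi
      simp only
      split_ifs <;> norm_num
    omega
  · have hi : i = 0 ∨ i = 1 ∨ i = 2 := by fin_cases i <;> simp
    rcases hi with rfl | rfl | rfl
    · exact absurd h (adj_a v)
    · have hv : v = b0 := h
      subst hv
      simp [phi, Ne.symm hyb]
    · have h' := (adj_c v).1 h
      have hn : nb G y b0 2 v := h
      simp [phi, h'.1, hn]
  · have h1 : phi G y b0 (.inr j) ≤ 1 := by
      unfold phi
      simp only
      split_ifs <;> norm_num
    omega

variable [Fintype V]

lemma upper {G : SimpleGraph V} (hG : Good G) (hV : 3 ≤ Fintype.card V) :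
    ∃ (W : Type) (_ : Fintype W) (H : SimpleGraph W),
      Fintype.card W = Fintype.card V + 3 ∧ IsASC 3 H ∧ Nonempty (G ↪g H) := by
  classical
  -- a non-adjacent pair
  obtain ⟨y, b0, hyb, hadj⟩ : ∃ y b0, y ≠ b0 ∧ ¬ G.Adj y b0 := by
    obtain ⟨x1, x2, x3, h1, h2, h3⟩ := Fintype.two_lt_card_iff.1 (show 2 < Fintype.card V by omega)
    obtain ⟨c, hc1, hc2, hc3, hc4, hc5, hc6⟩ := ext_nbr hG (y := x1) (b := x2) (x := x3) h1
      h2.symm h3.symm
    exact ⟨c, x1, hc1, hc5⟩
  -- every other vertex has a neighbour which is a common non-neighbour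
  have hdom : ∀ x, x ≠ y → x ≠ b0 → ∃ c, nb G y b0 2 c ∧ G.Adj c x := by
    intro x h1 h2
    obtain ⟨c, hc1, hc2, hc3, hc4, hc5, hc6⟩ := ext_nbr hG hyb h1 h2
    exact ⟨c, ⟨hc1, hc2, hc5, hc6⟩, hc4⟩
  obtain ⟨z0, hz0⟩ : ∃ z, nb G y b0 2 z := by
    obtain ⟨x, hx1, hx2⟩ : ∃ x, x ≠ y ∧ x ≠ b0 := by
      by_contra hno
      push Not at hno
      have : (univ : Finset V) ⊆ {y, b0} := by
        intro x _
        simp only [mem_insert, mem_singleton]
        by_cases h : x = y
        · exact Or.inl h
        · exact Or.inr (hno x h)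
      have := (Finset.card_le_card this).trans Finset.card_le_two
      rw [card_univ] at this
      omega
    obtain ⟨c, hc, -⟩ := hdom x hx1 hx2
    exact ⟨c, hc⟩
  set H := ext G y b0 with hH
  have hcn : ∀ u v : V, ∃ w, G.Adj w u ∧ G.Adj w v := common_nbr hG hV
  -- upper bounds for distances
  have dVV : ∀ u v : V, H.edist (.inl u) (.inl v) ≤ 2 := by
    intro u v
    obtain ⟨w, h1, h2⟩ := hcn u v
    exact edist_le_two (show H.Adj (.inl u) (.inl w) from h1.symm)
      (show H.Adj (.inl w) (.inl v) from h2)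
  have dbV : ∀ v : V, H.edist (.inr 1) (.inl v) ≤ 3 := by
    intro v
    obtain ⟨w, h1, h2⟩ := hcn b0 v
    exact edist_le_three (show H.Adj (.inr 1) (.inl b0) from adj_bb0)
      (show H.Adj (.inl b0) (.inl w) from h1.symm) (show H.Adj (.inl w) (.inl v) from h2)
  have dcV : ∀ v : V, H.edist (.inr 2) (.inl v) ≤ 3 := by
    intro v
    obtain ⟨w, h1, h2⟩ := hcn z0 v
    exact edist_le_three (show H.Adj (.inr 2) (.inl z0) from hz0)
      (show H.Adj (.inl z0) (.inl w) from h1.symm) (show H.Adj (.inl w) (.inl v) from h2)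
  have dab : H.edist (.inr 0) (.inr 1) ≤ 1 := edist_le_one adj_ab
  have dac : H.edist (.inr 0) (.inr 2) ≤ 1 := edist_le_one adj_ac
  have dbc : H.edist (.inr 1) (.inr 2) ≤ 2 := edist_le_two (adj_ab (G := G)).symm adj_ac
  have daV : ∀ v : V, v ≠ y → H.edist (.inr 0) (.inl v) ≤ 3 := by
    intro v hv
    by_cases hvb : v = b0
    · subst hvb
      exact (edist_le_two (adj_ab (G := G)) adj_bb0).trans (by norm_num)
    · obtain ⟨c, h1, h2⟩ := hdom v hv hvb
      exact edist_le_three (show H.Adj (.inr 0) (.inr 2) from adj_ac)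
        (show H.Adj (.inr 2) (.inl c) from h1) (show H.Adj (.inl c) (.inl v) from h2)
  have day : H.edist (.inr 0) (.inl y) ≤ 4 := by
    have h1 : H.edist (.inr 0) (.inl b0) ≤ 2 := edist_le_two (adj_ab (G := G)) adj_bb0
    calc H.edist (.inr 0) (.inl y) ≤ H.edist (.inr 0) (.inl b0) + H.edist (.inl b0) (.inl y) :=
          H.edist_triangle
      _ ≤ 2 + 2 := add_le_add h1 (dVV _ _)
      _ = 4 := by norm_num
  have fin3 : ∀ i : Fin 3, i = 0 ∨ i = 1 ∨ i = 2 := by
    intro i; fin_cases i <;> simp
  -- lower bounds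
  have lay : 4 ≤ H.edist (.inr 0) (.inl y) := by
    have := le_edist_of_lipschitz (phi G y b0) (phi_lip hyb hadj) (.inr 0) (.inl y) 4
      (by simp [phi])
    exact_mod_cast this
  have lby : 3 ≤ H.edist (.inr 1) (.inl y) := by
    have := le_edist_of_lipschitz (phi G y b0) (phi_lip hyb hadj) (.inr 1) (.inl y) 3
      (by simp [phi])
    exact_mod_cast this
  have lcy : 3 ≤ H.edist (.inr 2) (.inl y) := by
    have := le_edist_of_lipschitz (phi G y b0) (phi_lip hyb hadj) (.inr 2) (.inl y) 3
      (by simp [phi])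
    exact_mod_cast this
  have lav : ∀ v : V, v ≠ y → v ≠ b0 → ¬ nb G y b0 2 v → 3 ≤ H.edist (.inr 0) (.inl v) := by
    intro v h1 h2 h3
    have := le_edist_of_lipschitz (phi G y b0) (phi_lip hyb hadj) (.inr 0) (.inl v) 3
      (by simp [phi, h1, h2, h3])
    exact_mod_cast this
  have lcb0 : 3 ≤ H.edist (.inl b0) (.inr 2) := by
    apply three_le
    · simp
    · intro h
      exact ((adj_c b0).1 h.symm).2.1 rfl
    · rintro (w | i) h1 h2
      · exact ((adj_c w).1 h2).2.2.2 ((adj_ll b0 w).1 h1).symm
      · rcases fin3 i with rfl | rfl | rfl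
        · exact adj_a b0 h1.symm
        · exact not_adj_bc h2.symm
        · exact H.loopless.irrefl _ h2
  have lbz : ∀ z : V, nb G y b0 2 z → 3 ≤ H.edist (.inl z) (.inr 1) := by
    intro z hz
    apply three_le
    · simp
    · intro h
      exact hz.2.1 ((adj_b z).1 h.symm)
    · rintro (w | i) h1 h2
      · have hw : w = b0 := (adj_b w).1 h2
        subst hw
        exact hz.2.2.2 ((adj_ll z w).1 h1)
      · rcases fin3 i with rfl | rfl | rfl
        · exact adj_a z h1.symm
        · exact H.loopless.irrefl _ h2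
        · exact not_adj_bc h2
  -- eccentricities
  have e_a : H.eccent (.inr 0) = 4 := by
    apply le_antisymm
    · rw [SimpleGraph.eccent_le_iff]
      rintro (v | i)
      · by_cases hv : v = y
        · subst hv; exact day
        · exact (daV v hv).trans (by norm_num)
      · rcases fin3 i with rfl | rfl | rfl
        · rw [SimpleGraph.edist_self]; exact bot_le
        · exact dab.trans (by norm_num)
        · exact dac.trans (by norm_num)
    · exact lay.trans SimpleGraph.edist_le_eccent
  have e_y : H.eccent (.inl y) = 4 := by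
    apply le_antisymm
    · rw [SimpleGraph.eccent_le_iff]
      rintro (v | i)
      · exact (dVV y v).trans (by norm_num)
      · rcases fin3 i with rfl | rfl | rfl
        · rw [SimpleGraph.edist_comm]; exact day
        · rw [SimpleGraph.edist_comm]; exact (dbV y).trans (by norm_num)
        · rw [SimpleGraph.edist_comm]; exact (dcV y).trans (by norm_num)
    · rw [SimpleGraph.edist_comm] at lay
      exact lay.trans SimpleGraph.edist_le_eccent
  have e_b : H.eccent (.inr 1) = 3 := by
    apply le_antisymm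
    · rw [SimpleGraph.eccent_le_iff]
      rintro (v | i)
      · exact dbV v
      · rcases fin3 i with rfl | rfl | rfl
        · rw [SimpleGraph.edist_comm]; exact dab.trans (by norm_num)
        · rw [SimpleGraph.edist_self]; exact bot_le
        · exact dbc.trans (by norm_num)
    · exact lby.trans SimpleGraph.edist_le_eccent
  have e_c : H.eccent (.inr 2) = 3 := by
    apply le_antisymm
    · rw [SimpleGraph.eccent_le_iff]
      rintro (v | i)
      · exact dcV v
      · rcases fin3 i with rfl | rfl | rfl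
        · rw [SimpleGraph.edist_comm]; exact dac.trans (by norm_num)
        · rw [SimpleGraph.edist_comm]; exact dbc.trans (by norm_num)
        · rw [SimpleGraph.edist_self]; exact bot_le
    · exact lcy.trans SimpleGraph.edist_le_eccent
  have e_V : ∀ v : V, v ≠ y → H.eccent (.inl v) = 3 := by
    intro v hv
    apply le_antisymm
    · rw [SimpleGraph.eccent_le_iff]
      rintro (u | i)
      · exact (dVV v u).trans (by norm_num)
      · rcases fin3 i with rfl | rfl | rfl
        · rw [SimpleGraph.edist_comm]; exact daV v hv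
        · rw [SimpleGraph.edist_comm]; exact dbV v
        · rw [SimpleGraph.edist_comm]; exact dcV v
    · by_cases h1 : v = b0
      · subst h1
        exact lcb0.trans SimpleGraph.edist_le_eccent
      · by_cases h2 : nb G y b0 2 v
        · exact (lbz v h2).trans SimpleGraph.edist_le_eccent
        · have := lav v hv h1 h2
          rw [SimpleGraph.edist_comm] at this
          exact this.trans SimpleGraph.edist_le_eccent
  have hrad : H.radius = 3 := by
    apply le_antisymm
    · rw [← e_b]; exact SimpleGraph.radius_le_eccent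
    · unfold SimpleGraph.radius
      apply le_iInf
      rintro (v | i)
      · by_cases hv : v = y
        · subst hv; rw [e_y]; norm_num
        · rw [e_V v hv]
      · rcases fin3 i with rfl | rfl | rfl
        · rw [e_a]; norm_num
        · rw [e_b]
        · rw [e_c]
  refine ⟨V ⊕ Fin 3, inferInstance, H, by simp, ⟨?_, ?_, ?_⟩, ⟨?_⟩⟩
  · have : Nonempty (V ⊕ Fin 3) := ⟨.inr 0⟩
    rw [← SimpleGraph.radius_ne_top_iff, hrad]
    decide
  · exact_mod_cast hrad
  · have : H.centerᶜ = {.inr 0, .inl y} := by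
      ext x
      simp only [Set.mem_compl_iff, SimpleGraph.mem_center_iff, hrad, Set.mem_insert_iff,
        Set.mem_singleton_iff]
      rcases x with v | i
      · by_cases hv : v = y
        · subst hv; rw [e_y]; simp
        · rw [e_V v hv]; simp [hv]
      · rcases fin3 i with rfl | rfl | rfl
        · rw [e_a]; simp
        · rw [e_b]; simp
        · rw [e_c]; simp
    rw [this]
    exact Set.ncard_pair (by simp)
  · exact ⟨⟨Sum.inl, Sum.inl_injective⟩, Iff.rfl⟩

/-- Good graphs have `3`-ASC index `3`. -/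
theorem theta_eq_three {G : SimpleGraph V} (hG : Good G) (hV : 3 ≤ Fintype.card V) :
    theta 3 G = 3 := by
  unfold theta
  apply le_antisymm
  · exact Nat.sInf_le (upper hG hV)
  · apply le_csInf ⟨3, upper hG hV⟩
    rintro k ⟨W, hW, H, hc, hH, ⟨f⟩⟩
    have := lower hG hV hH f
    omega

end Pool.Agent.MP_5f8894_co
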